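import Mathlib

/-!
Deleting four rows of a normalized Hadamard matrix need not leave a diametrically maximal set of
columns, for arbitrarily large orders.
-/

namespace Pool.Agent.Results.MP_1efffb_co.NotDiamMax

open Matrix

/-- The cube `{±1}^m`. -/
def cube (m : ℕ) : Set (Fin m → ℤ) := {x | ∀ i, x i = 1 ∨ x i = -1}

/-- The diameter of a set of vectors for the Hamming distance. -/
noncomputable def cubeDiam {m : ℕ} (A : Set (Fin m → ℤ)) : ℕ :=
  sSup {d | ∃ x ∈ A, ∃ y ∈ A, hammingDist x y = d}

/-- `A` is diametrically maximal in `{±1}^m`. -/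
def DiamMax {m : ℕ} (A : Set (Fin m → ℤ)) : Prop :=
  ∀ x ∈ cube m, x ∉ A → cubeDiam A < cubeDiam (A ∪ {x})

/-- `H` is a Hadamard matrix of order `n`. -/
def IsHadamard {n : ℕ} (H : Matrix (Fin n) (Fin n) ℤ) : Prop :=
  (∀ i j, H i j = 1 ∨ H i j = -1) ∧ H * Hᵀ = (n : ℤ) • (1 : Matrix (Fin n) (Fin n) ℤ) ∧
    Hᵀ * H = (n : ℤ) • (1 : Matrix (Fin n) (Fin n) ℤ)

/-- All entries of the first row and of the first column are `1`. -/
def IsNormalized {n : ℕ} (H : Matrix (Fin n) (Fin n) ℤ) : Prop :=
  ∀ i j : Fin n, (i.val = 0 ∨ j.val = 0) → H i j = 1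

/-- The set of columns of `H` with the first `r` rows deleted. -/
def colSet {n : ℕ} (H : Matrix (Fin n) (Fin n) ℤ) (r : ℕ) : Set (Fin (n - r) → ℤ) :=
  {x | ∃ j, x = fun i : Fin (n - r) => H ⟨i.val + r, by omega⟩ j}

/-- row and column orthogonality in terms of sums, entries `±1` -/
def Orth {I : Type} [Fintype I] [DecidableEq I] (H : I → I → ℤ) : Prop :=
  (∀ i j, H i j = 1 ∨ H i j = -1) ∧
  (∀ i k, ∑ j, H i j * H k j = if i = k then (Fintype.card I : ℤ) else 0) ∧
  (∀ j l, ∑ i, H i j * H i l = if j = l then (Fintype.card I : ℤ) else 0)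

/-- block construction -/
def blk {I : Type} (H K : I → I → ℤ) : I ⊕ I → I ⊕ I → ℤ
  | .inl i, .inl j => H i j
  | .inl i, .inr j => H i j
  | .inr i, .inl j => K i j
  | .inr i, .inr j => - K i j

theorem blk_orth {I : Type} [Fintype I] [DecidableEq I] (H K : I → I → ℤ) (hH : Orth H)
    (hK : Orth K) : Orth (blk H K) := by
  obtain ⟨h1, h2, h3⟩ := hH
  obtain ⟨k1, k2, k3⟩ := hK
  refine ⟨?_, ?_, ?_⟩
  · rintro (i | i) (j | j)
    · exact h1 i j
    · exact h1 i j
    · exact k1 i j
    · rcases k1 i j with h | h <;> simp [blk, h]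
  · rintro (i | i) (k | k)
    · simp only [Fintype.sum_sum_type, blk, h2, Sum.inl.injEq, Fintype.card_sum]
      split_ifs <;> push_cast <;> ring
    · simp only [Fintype.sum_sum_type, blk, reduceCtorEq, if_false]
      rw [← Finset.sum_add_distrib]
      apply Finset.sum_eq_zero
      intro j _
      ring
    · simp only [Fintype.sum_sum_type, blk, reduceCtorEq, if_false]
      rw [← Finset.sum_add_distrib]
      apply Finset.sum_eq_zero
      intro j _
      ring
    · simp only [Fintype.sum_sum_type, blk, Sum.inr.injEq, Fintype.card_sum]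
      have : ∀ j, -K i j * -K k j = K i j * K k j := fun j => by ring
      simp only [this, k2]
      split_ifs <;> push_cast <;> ring
  · rintro (j | j) (l | l)
    · simp only [Fintype.sum_sum_type, blk, h3, k3, Sum.inl.injEq, Fintype.card_sum]
      split_ifs <;> push_cast <;> ring
    · simp only [Fintype.sum_sum_type, blk, reduceCtorEq, if_false, h3]
      have : ∀ i, K i j * -K i l = -(K i j * K i l) := fun j => by ring
      simp only [this, Finset.sum_neg_distrib, k3]
      ring
    · simp only [Fintype.sum_sum_type, blk, reduceCtorEq, if_false, h3]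
      have : ∀ i, -K i j * K i l = -(K i j * K i l) := fun j => by ring
      simp only [this, Finset.sum_neg_distrib, k3]
      ring
    · simp only [Fintype.sum_sum_type, blk, Sum.inr.injEq, Fintype.card_sum, h3]
      have : ∀ i, -K i j * -K i l = K i j * K i l := fun j => by ring
      simp only [this, k3]
      split_ifs <;> push_cast <;> ring

/-- a pair of matrices with a quadruple of columns as needed -/
def Good {I : Type} [Fintype I] [DecidableEq I] (H K : I → I → ℤ) (q : Fin 4 → I) : Prop :=
  Orth H ∧ Orth K ∧ Function.Injective q ∧ (∀ i, ∏ t, H i (q t) = 1) ∧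
    (Finset.univ.filter (fun i => ∏ t, K i (q t) = -1)).card = 4

theorem good_step {I : Type} [Fintype I] [DecidableEq I] (H K : I → I → ℤ) (q : Fin 4 → I)
    (h : Good H K q) : Good (blk H H) (blk H K) (fun t => Sum.inl (q t)) := by
  obtain ⟨h1, h2, h3, h4, h5⟩ := h
  refine ⟨blk_orth H H h1 h1, blk_orth H K h1 h2, ?_, ?_, ?_⟩
  · intro a b hab
    exact h3 (Sum.inl.inj hab)
  · rintro (i | i)
    · exact h4 i
    · exact h4 i
  · refine Eq.trans ?_ h5
    symm
    apply Finset.card_bij (fun i _ => Sum.inr i)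
    · intro i hi
      simp only [Finset.mem_filter, Finset.mem_univ, true_and] at hi ⊢
      exact hi
    · intro a _ b _ hab
      exact Sum.inr.inj hab
    · rintro (i | i) hi
      · simp only [Finset.mem_filter, Finset.mem_univ, true_and] at hi
        have : ∏ t, blk H K (Sum.inl i) (Sum.inl (q t)) = 1 := h4 i
        rw [this] at hi
        norm_num at hi
      · simp only [Finset.mem_filter, Finset.mem_univ, true_and] at hi
        exact ⟨i, by simp only [Finset.mem_filter, Finset.mem_univ, true_and]; exact hi, rfl⟩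

/-- the Sylvester matrix of order eight -/
def S8 (i j : Fin 8) : ℤ :=
  if ((i.val &&& j.val).testBit 0 ^^ (i.val &&& j.val).testBit 1 ^^ (i.val &&& j.val).testBit 2)
    then -1 else 1

/-- columns three and four interchanged -/
def K8 (i j : Fin 8) : ℤ := S8 i (Equiv.swap 3 4 j)

theorem good8 : Good S8 K8 (fun t => ⟨t.val, by omega⟩) := by
  unfold Good Orth
  decide +kernel

theorem exists_good (k : ℕ) : ∃ (I : Type) (_ : Fintype I) (_ : DecidableEq I)
    (H K : I → I → ℤ) (q : Fin 4 → I), Fintype.card I = 8 * 2 ^ k ∧ Good H K q := by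
  induction k with
  | zero => exact ⟨Fin 8, inferInstance, inferInstance, S8, K8, _, by simp, good8⟩
  | succ k ih =>
    obtain ⟨I, _, _, H, K, q, hI, hg⟩ := ih
    refine ⟨I ⊕ I, inferInstance, inferInstance, _, _, _, ?_, good_step H K q hg⟩
    rw [Fintype.card_sum, hI]
    ring

/-- A normalized Hadamard matrix with four columns whose product is `1` exactly on the first four
rows. -/
theorem exists_special (n : ℕ) (k : ℕ) (hn : n = 8 * 2 ^ k) :
    ∃ (M : Matrix (Fin n) (Fin n) ℤ) (q : Fin 4 → Fin n), Orth M ∧ IsNormalized M ∧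
      Function.Injective q ∧ ∀ i, ∏ t, M i (q t) = if i.val < 4 then 1 else -1 := by
  classical
  obtain ⟨I, _, _, H, K, q, hI, -, hK, hq, -, hT⟩ := exists_good k
  have hcard : Fintype.card I = n := by rw [hI, hn]
  have hn4 : 4 < n := by
    rw [hn]
    have : 0 < 2 ^ k := by positivity
    omega
  set T := Finset.univ.filter (fun i => ∏ t, K i (q t) = -1) with hTdef
  -- an equivalence sending the first four indices to `T`
  obtain ⟨e, he⟩ : ∃ e : Fin n ≃ I, ∀ i : Fin n, e i ∈ T ↔ i.val < 4 := by
    have h1 : Fintype.card {i : Fin n // i.val < 4} = Fintype.card {i : I // i ∈ T} := by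
      rw [Fintype.card_coe, hT, Fintype.card_subtype]
      have : (Finset.univ.filter (fun i : Fin n => i.val < 4)) =
          Finset.univ.map (Fin.castLEEmb hn4.le) := by
        ext i
        simp only [Finset.mem_filter, Finset.mem_univ, true_and, Finset.mem_map]
        constructor
        · intro hi
          exact ⟨⟨i.val, hi⟩, by ext; simp⟩
        · rintro ⟨a, ha⟩
          rw [← ha]
          simp
      rw [this, Finset.card_map, Finset.card_univ, Fintype.card_fin]
    have h2 : Fintype.card {i : Fin n // ¬ i.val < 4} = Fintype.card {i : I // ¬ i ∈ T} := by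
      rw [Fintype.card_subtype_compl, Fintype.card_subtype_compl, h1, hcard, Fintype.card_fin]
    set e1 := Fintype.equivOfCardEq h1
    set e2 := Fintype.equivOfCardEq h2
    refine ⟨(Equiv.sumCompl (fun i : Fin n => i.val < 4)).symm.trans
      ((Equiv.sumCongr e1 e2).trans (Equiv.sumCompl (fun i : I => i ∈ T))), ?_⟩
    intro i
    obtain ⟨y, rfl⟩ := (Equiv.sumCompl (fun i : Fin n => i.val < 4)).surjective i
    rw [Equiv.trans_apply, Equiv.symm_apply_apply, Equiv.trans_apply, Equiv.sumCongr_apply]
    rcases y with y | y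
    · rw [Sum.map_inl, Equiv.sumCompl_apply_inl, Equiv.sumCompl_apply_inl]
      exact ⟨fun _ => y.2, fun _ => (e1 y).2⟩
    · rw [Sum.map_inr, Equiv.sumCompl_apply_inr, Equiv.sumCompl_apply_inr]
      exact ⟨fun h => absurd h (e2 y).2, fun h => absurd h y.2⟩
  set z : Fin n := ⟨0, by omega⟩ with hz
  set f : Fin n ≃ I := (Fintype.equivFinOfCardEq hcard).symm with hf
  set p : I → ℤ := fun i => K i (f z) * K (e z) (f z) with hp
  have hpm := hK.1
  have sq : ∀ i j, K i j * K i j = 1 := by
    intro i j
    rcases hpm i j with h | h <;> simp [h]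
  have hppm : ∀ i, p i * p i = 1 := by
    intro i
    have : p i * p i = (K i (f z) * K i (f z)) * (K (e z) (f z) * K (e z) (f z)) := by
      rw [hp]; ring
    rw [this, sq, sq, one_mul]
  refine ⟨fun i j => K (e i) (f j) * K (e z) (f j) * p (e i), fun t => f.symm (q t),
    ⟨?_, ?_, ?_⟩, ?_, ?_, ?_⟩
  · intro i j
    simp only [hp]
    rcases hpm (e i) (f j) with h | h <;> rcases hpm (e z) (f j) with h' | h' <;>
      rcases hpm (e i) (f z) with h'' | h'' <;> rcases hpm (e z) (f z) with h''' | h''' <;>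
      simp [h, h', h'', h''']
  · intro i k
    have h1 : ∀ j, K (e i) (f j) * K (e z) (f j) * p (e i) *
        (K (e k) (f j) * K (e z) (f j) * p (e k)) =
        (p (e i) * p (e k)) * (K (e i) (f j) * K (e k) (f j)) := by
      intro j
      have := sq (e z) (f j)
      calc _ = (K (e z) (f j) * K (e z) (f j)) * ((p (e i) * p (e k)) *
          (K (e i) (f j) * K (e k) (f j))) := by ring
        _ = _ := by rw [this, one_mul]
    simp only [h1]
    rw [← Finset.mul_sum, Equiv.sum_comp f (fun j => K (e i) j * K (e k) j), hK.2.1]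
    by_cases hik : i = k
    · subst hik
      rw [if_pos rfl, if_pos rfl, hppm, one_mul, hcard, Fintype.card_fin]
    · rw [if_neg hik, if_neg (fun h => hik (e.injective h)), mul_zero]
  · intro j l
    have h1 : ∀ i, K (e i) (f j) * K (e z) (f j) * p (e i) *
        (K (e i) (f l) * K (e z) (f l) * p (e i)) =
        (K (e z) (f j) * K (e z) (f l)) * (K (e i) (f j) * K (e i) (f l)) := by
      intro i
      have := hppm (e i)
      calc _ = (p (e i) * p (e i)) * ((K (e z) (f j) * K (e z) (f l)) *
          (K (e i) (f j) * K (e i) (f l))) := by ring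
        _ = _ := by rw [this, one_mul]
    simp only [h1]
    rw [← Finset.mul_sum, Equiv.sum_comp e (fun i => K i (f j) * K i (f l)), hK.2.2]
    by_cases hjl : j = l
    · subst hjl
      rw [if_pos rfl, if_pos rfl, sq, one_mul, hcard, Fintype.card_fin]
    · rw [if_neg hjl, if_neg (fun h => hjl (f.injective h)), mul_zero]
  · intro i j hij
    simp only [hp]
    rcases hij with h | h
    · have : i = z := Fin.ext h
      subst this
      calc K (e z) (f j) * K (e z) (f j) * (K (e z) (f z) * K (e z) (f z)) = 1 * 1 := by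
            rw [sq, sq]
        _ = 1 := by norm_num
    · have : j = z := Fin.ext h
      subst this
      calc K (e i) (f z) * K (e z) (f z) * (K (e i) (f z) * K (e z) (f z))
          = (K (e i) (f z) * K (e i) (f z)) * (K (e z) (f z) * K (e z) (f z)) := by ring
        _ = 1 := by rw [sq, sq, one_mul]
  · exact f.symm.injective.comp hq
  · intro i
    simp only [Equiv.apply_symm_apply]
    rw [Finset.prod_mul_distrib, Finset.prod_mul_distrib]
    have h1 : ∏ _t : Fin 4, p (e i) = 1 := by
      rw [Finset.prod_const, Finset.card_univ, Fintype.card_fin]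
      have : p (e i) ^ 4 = (p (e i) * p (e i)) * (p (e i) * p (e i)) := by ring
      rw [this, hppm, one_mul]
    have hz1 : ∏ t, K (e z) (q t) = -1 := by
      have : e z ∈ T := (he z).2 (by simp [hz])
      rw [hTdef] at this
      simpa using this
    rw [h1, hz1]
    by_cases hi : i.val < 4
    · rw [if_pos hi]
      have : e i ∈ T := (he i).2 hi
      rw [hTdef] at this
      simp only [Finset.mem_filter, Finset.mem_univ, true_and] at this
      rw [this]
      norm_num
    · rw [if_neg hi]
      have h2 : e i ∉ T := fun h => hi ((he i).1 h)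
      have h3 : ∏ t, K (e i) (q t) = 1 := by
        have h4 : ∏ t, K (e i) (q t) = 1 ∨ ∏ t, K (e i) (q t) = -1 := by
          rw [Fin.prod_univ_four]
          rcases hpm (e i) (q 0) with a | a <;> rcases hpm (e i) (q 1) with b | b <;>
            rcases hpm (e i) (q 2) with c | c <;> rcases hpm (e i) (q 3) with d | d <;>
            simp [a, b, c, d]
        rcases h4 with h4 | h4
        · exact h4
        · exfalso
          apply h2
          rw [hTdef]
          simpa using h4
      rw [h3]
      norm_num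

theorem hd_formula {m : ℕ} (x y : Fin m → ℤ) (hx : x ∈ cube m) (hy : y ∈ cube m) :
    2 * (hammingDist x y : ℤ) = m - ∑ i, x i * y i := by
  have h1 : (hammingDist x y : ℤ) = ∑ i, if x i ≠ y i then (1 : ℤ) else 0 := by
    unfold hammingDist
    rw [Finset.card_filter]
    push_cast
    rfl
  have h2 : (m : ℤ) = ∑ _i : Fin m, (1 : ℤ) := by simp
  rw [h1, h2, Finset.mul_sum, ← Finset.sum_sub_distrib]
  apply Finset.sum_congr rfl
  intro i _
  rcases hx i with h | h <;> rcases hy i with h' | h' <;> simp [h, h']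

/-- splitting off the first four rows -/
theorem sum_split (n : ℕ) (hn : 4 < n) (F : Fin n → ℤ) :
    ∑ i, F i = F ⟨0, by omega⟩ + F ⟨1, by omega⟩ + F ⟨2, by omega⟩ + F ⟨3, by omega⟩ +
      ∑ i : Fin (n - 4), F ⟨i.val + 4, by omega⟩ := by
  obtain ⟨m, rfl⟩ : ∃ m, n = 4 + m := ⟨n - 4, by omega⟩
  rw [Fin.sum_univ_add, Fin.sum_univ_four]
  congr 1
  have e : m = 4 + m - 4 := by omega
  rw [← Equiv.sum_comp (finCongr e)]
  apply Finset.sum_congr rfl
  intro i _
  congr 1
  ext
  simp [Fin.natAdd]
  omega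

theorem main (n : ℕ) (k : ℕ) (hk : 1 ≤ k) (hn : n = 8 * 2 ^ k) :
    ∃ H : Matrix (Fin n) (Fin n) ℤ, IsHadamard H ∧ IsNormalized H ∧ ¬ DiamMax (colSet H 4) := by
  obtain ⟨M, q, hM, hnorm, hq, hprod⟩ := exists_special n k hn
  obtain ⟨hpm, hrow, hcol⟩ := hM
  have h16 : 16 ≤ n := by
    rw [hn]
    have : 2 ^ 1 ≤ 2 ^ k := Nat.pow_le_pow_right (by norm_num) hk
    omega
  rw [Fintype.card_fin] at hrow hcol
  refine ⟨M, ⟨hpm, ?_, ?_⟩, hnorm, ?_⟩
  · ext i j
    rw [Matrix.mul_apply]
    simp only [Matrix.transpose_apply, Matrix.smul_apply, Matrix.one_apply, smul_eq_mul]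
    rw [hrow]
    split_ifs <;> simp
  · ext i j
    rw [Matrix.mul_apply]
    simp only [Matrix.transpose_apply, Matrix.smul_apply, Matrix.one_apply, smul_eq_mul]
    rw [hcol]
    split_ifs <;> simp
  intro hDM
  -- the columns without the first four rows
  set c : Fin n → Fin (n - 4) → ℤ := fun j i => M ⟨i.val + 4, by omega⟩ j with hc
  have hcmem : ∀ j, c j ∈ colSet M 4 := fun j => ⟨j, rfl⟩
  have hccube : ∀ j, c j ∈ cube (n - 4) := fun j i => hpm _ _
  -- the new point
  set x : Fin (n - 4) → ℤ := fun i => (∑ t, M ⟨i.val + 4, by omega⟩ (q t)) / 2 with hx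
  have hx2 : ∀ i, (x i = 1 ∨ x i = -1) ∧ 2 * x i = ∑ t, M ⟨i.val + 4, by omega⟩ (q t) := by
    intro i
    have h1 := hprod ⟨i.val + 4, by omega⟩
    rw [if_neg (by simp)] at h1
    rw [hx]
    simp only
    rw [Fin.prod_univ_four] at h1
    rw [Fin.sum_univ_four]
    rcases hpm ⟨i.val + 4, by omega⟩ (q 0) with a | a <;>
      rcases hpm ⟨i.val + 4, by omega⟩ (q 1) with b | b <;>
      rcases hpm ⟨i.val + 4, by omega⟩ (q 2) with d | d <;>
      rcases hpm ⟨i.val + 4, by omega⟩ (q 3) with e | e <;>
      rw [a, b, d, e] at h1 ⊢ <;>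
      first
        | (exfalso; revert h1; norm_num; done)
        | norm_num
  have hxcube : x ∈ cube (n - 4) := fun i => (hx2 i).1
  -- row sums of the quadruple
  set R : Fin n → ℤ := fun i => ∑ t, M i (q t) with hR
  have hR0 : R ⟨0, by omega⟩ = 4 := by
    rw [hR]
    simp only
    have : ∀ t, M ⟨0, by omega⟩ (q t) = 1 := fun t => hnorm _ _ (Or.inl rfl)
    simp [this]
  have hRsq : ∑ i, R i * R i = 4 * n := by
    have h1 : ∀ i, R i * R i = ∑ t, ∑ s, M i (q t) * M i (q s) := by
      intro i
      rw [hR]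
      simp only
      rw [Finset.sum_mul_sum]
    simp only [h1]
    rw [Finset.sum_comm]
    have h2 : ∀ t, ∑ i, ∑ s, M i (q t) * M i (q s) = n := by
      intro t
      rw [Finset.sum_comm]
      simp only [hcol]
      have h3 : ∀ s, (if q t = q s then (n : ℤ) else 0) = if t = s then (n : ℤ) else 0 := by
        intro s
        by_cases h : t = s
        · rw [if_pos h, if_pos (by rw [h])]
        · rw [if_neg h, if_neg (fun h' => h (hq h'))]
      simp only [h3]
      simp
    simp only [h2]
    simp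
  have hRge : ∀ i : Fin (n - 4), R ⟨i.val + 4, by omega⟩ * R ⟨i.val + 4, by omega⟩ = 4 := by
    intro i
    have h1 := hx2 i
    have h2 : R ⟨i.val + 4, by omega⟩ = 2 * x i := h1.2.symm
    rw [h2]
    rcases h1.1 with h | h <;> rw [h] <;> norm_num
  have hn4 : ((n - 4 : ℕ) : ℤ) = (n : ℤ) - 4 := by
    push_cast [Nat.cast_sub (show 4 ≤ n by omega)]
    ring
  have hR123 : R ⟨1, by omega⟩ = 0 ∧ R ⟨2, by omega⟩ = 0 ∧ R ⟨3, by omega⟩ = 0 := by
    rw [sum_split n (by omega)] at hRsq
    simp only [hRge, hR0] at hRsq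
    rw [Finset.sum_const, Finset.card_univ, Fintype.card_fin, nsmul_eq_mul, hn4] at hRsq
    have a1 := mul_self_nonneg (R ⟨1, by omega⟩)
    have a2 := mul_self_nonneg (R ⟨2, by omega⟩)
    have a3 := mul_self_nonneg (R ⟨3, by omega⟩)
    refine ⟨?_, ?_, ?_⟩
    · apply mul_self_eq_zero.1; linarith
    · apply mul_self_eq_zero.1; linarith
    · apply mul_self_eq_zero.1; linarith
  have h0 : ∀ j, M ⟨0, by omega⟩ j = 1 := fun j => hnorm _ _ (Or.inl rfl)
  -- inner products
  have hin : ∀ j, 2 * ∑ i, x i * c j i = (∑ t, if q t = j then (n : ℤ) else 0) - 4 := by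
    intro j
    have h1 : 2 * ∑ i, x i * c j i = ∑ i : Fin (n - 4), R ⟨i.val + 4, by omega⟩ *
        M ⟨i.val + 4, by omega⟩ j := by
      rw [Finset.mul_sum]
      apply Finset.sum_congr rfl
      intro i _
      rw [← mul_assoc, (hx2 i).2]
    have h2 := sum_split n (by omega) (fun i => R i * M i j)
    simp only [hR0, hR123.1, hR123.2.1, hR123.2.2, h0, mul_one, zero_mul, add_zero] at h2
    have h3 : ∑ i, R i * M i j = ∑ t, if q t = j then (n : ℤ) else 0 := by
      have h4 : ∀ i, R i * M i j = ∑ t, M i (q t) * M i j := by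
        intro i
        rw [hR]
        simp only
        rw [Finset.sum_mul]
      simp only [h4]
      rw [Finset.sum_comm]
      simp only [hcol]
    rw [h1]
    linarith
  have hqj : ∀ j, 0 ≤ (∑ t, if q t = j then (n : ℤ) else 0) ∧
      (∑ t, if q t = j then (n : ℤ) else 0) ≤ n := by
    intro j
    constructor
    · apply Finset.sum_nonneg
      intro t _
      split_ifs
      · positivity
      · exact le_rfl
    · by_cases hj : ∃ s, q s = j
      · obtain ⟨s, hs⟩ := hj
        have : ∀ t, (if q t = j then (n : ℤ) else 0) = if t = s then (n : ℤ) else 0 := by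
          intro t
          by_cases h : t = s
          · rw [if_pos h, if_pos (by rw [h, hs])]
          · rw [if_neg h, if_neg (fun h' => h (hq (h'.trans hs.symm)))]
        simp [this]
      · push Not at hj
        simp [hj]
  -- distances from `x`
  have hdx : ∀ j, 2 * (hammingDist x (c j) : ℤ) ≤ n - 2 := by
    intro j
    rw [hd_formula x (c j) hxcube (hccube j), hn4]
    have := hin j
    have := (hqj j).1
    linarith
  have hxA : x ∉ colSet M 4 := by
    rintro ⟨j, hj⟩
    have h1 : x = c j := hj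
    have h2 := hd_formula x (c j) hxcube (hccube j)
    rw [h1, hammingDist_self, ← h1, hn4] at h2
    have h3 := hin j
    have h4 := (hqj j).2
    have h5 : ∑ i, x i * c j i = (n : ℤ) - 4 := by
      have e : ∑ i, x i * c j i = ∑ i, x i * x i := by rw [← h1]
      rw [e]
      push_cast at h2
      linarith
    have h7 : (16 : ℤ) ≤ n := by exact_mod_cast h16
    linarith
  -- the diameter of the columns is at least `n/2`
  obtain ⟨j1, j2, hj12, hagree⟩ : ∃ j1 j2 : Fin n, j1 ≠ j2 ∧
      (M ⟨1, by omega⟩ j1 = M ⟨1, by omega⟩ j2 ∧ M ⟨2, by omega⟩ j1 = M ⟨2, by omega⟩ j2 ∧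
      M ⟨3, by omega⟩ j1 = M ⟨3, by omega⟩ j2) := by
    have hlt : Fintype.card (Bool × Bool × Bool) < Fintype.card (Fin n) := by
      rw [Fintype.card_fin]
      have : Fintype.card (Bool × Bool × Bool) = 8 := by decide
      omega
    obtain ⟨j1, j2, hne, heq⟩ := Fintype.exists_ne_map_eq_of_card_lt
      (fun j : Fin n => (decide (M ⟨1, by omega⟩ j = 1), decide (M ⟨2, by omega⟩ j = 1),
        decide (M ⟨3, by omega⟩ j = 1))) hlt
    simp only [Prod.mk.injEq, decide_eq_decide] at heq
    have aux : ∀ a b : ℤ, (a = 1 ∨ a = -1) → (b = 1 ∨ b = -1) → (a = 1 ↔ b = 1) → a = b := by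
      rintro a b (rfl | rfl) (rfl | rfl) h <;> simp_all
    exact ⟨j1, j2, hne, aux _ _ (hpm _ _) (hpm _ _) heq.1,
      aux _ _ (hpm _ _) (hpm _ _) heq.2.1, aux _ _ (hpm _ _) (hpm _ _) heq.2.2⟩
  have hdist : 2 * (hammingDist (c j1) (c j2) : ℤ) = n := by
    rw [hd_formula _ _ (hccube j1) (hccube j2), hn4]
    have h1 := sum_split n (by omega) (fun i => M i j1 * M i j2)
    rw [hcol, if_neg hj12] at h1
    rw [hagree.1, hagree.2.1, hagree.2.2, h0, h0] at h1
    have s : ∀ i, M i j2 * M i j2 = 1 := by
      intro i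
      rcases hpm i j2 with h | h <;> simp [h]
    rw [s, s, s] at h1
    have h2 : ∑ i, c j1 i * c j2 i = ∑ i : Fin (n - 4), M ⟨i.val + 4, by omega⟩ j1 *
      M ⟨i.val + 4, by omega⟩ j2 := rfl
    rw [h2]
    linarith
  have hbdd : ∀ A : Set (Fin (n - 4) → ℤ),
      BddAbove {d | ∃ x ∈ A, ∃ y ∈ A, hammingDist x y = d} := by
    intro A
    refine ⟨n - 4, ?_⟩
    rintro d ⟨u, -, v, -, rfl⟩
    have := hammingDist_le_card_fintype (x := u) (y := v)
    rwa [Fintype.card_fin] at this
  have hDge : hammingDist (c j1) (c j2) ≤ cubeDiam (colSet M 4) :=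
    le_csSup (hbdd _) ⟨c j1, hcmem j1, c j2, hcmem j2, rfl⟩
  have hlt := hDM x hxcube hxA
  have hle : cubeDiam (colSet M 4 ∪ {x}) ≤ cubeDiam (colSet M 4) := by
    apply csSup_le
    · exact ⟨_, c j1, Or.inl (hcmem j1), c j1, Or.inl (hcmem j1), rfl⟩
    · have hxc : ∀ u ∈ colSet M 4, hammingDist x u ≤ cubeDiam (colSet M 4) := by
        rintro u ⟨j, rfl⟩
        have h1 := hdx j
        have h2 : hammingDist x (c j) ≤ hammingDist (c j1) (c j2) := by
          have : (hammingDist x (c j) : ℤ) ≤ (hammingDist (c j1) (c j2) : ℤ) := by linarith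
          exact_mod_cast this
        exact h2.trans hDge
      rintro d ⟨u, hu, v, hv, rfl⟩
      rcases hu with hu | hu <;> rcases hv with hv | hv
      · exact le_csSup (hbdd _) ⟨u, hu, v, hv, rfl⟩
      · rw [Set.mem_singleton_iff] at hv
        rw [hv, hammingDist_comm]
        exact hxc u hu
      · rw [Set.mem_singleton_iff] at hu
        rw [hu]
        exact hxc v hv
      · rw [Set.mem_singleton_iff] at hu hv
        rw [hu, hv, hammingDist_self]
        exact Nat.zero_le _
  omega

/-- The assertion of Q1 fails (for `r = 4`). -/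
theorem result : ¬ ∀ r : ℕ, ∃ n₀ : ℕ, ∀ n : ℕ, n₀ ≤ n → ∀ H : Matrix (Fin n) (Fin n) ℤ,
    IsHadamard H → IsNormalized H → DiamMax (colSet H r) := by
  intro h
  obtain ⟨n₀, hn₀⟩ := h 4
  have hlt : n₀ < 2 ^ n₀ := Nat.lt_two_pow_self
  obtain ⟨H, h1, h2, h3⟩ := main (8 * 2 ^ (n₀ + 1)) (n₀ + 1) (by omega) rfl
  apply h3
  apply hn₀ _ _ H h1 h2
  rw [pow_succ]
  omega

end Pool.Agent.Results.MP_1efffb_co.NotDiamMax
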